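import Mathlib
import Pool.Agent.FB.Z1.St

/-!
# FB/AX: closed 4-braids with `f = 1`: the exponent sum and the Alexander polynomial

THEOREM.  Let the closure `K` of the 4-braid `β` have `f = 1`, and let `e` be the sum of the exponents of `β`.
Then `e` is odd, `|e| ≤ 5`, and the reduced Burau matrix `ψ` of `β` has
`det (1 - ψ) = t ^ ((e - 3) / 2) (1 + t) (1 + t²) D`, `D = 1` if `|e| ≤ 3` and
`D = - t³ + 2 t² + t - 3 + t⁻¹ + 2 t⁻² - t⁻³` if `|e| = 5`: `D` is the Alexander polynomial of `K`.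

PROOF.  `q = -A⁻⁴ = -t`, `Q = (A² + A⁻²)² = 2 - q - 1/q`, `X = tr T3`, `Y = tr T2` (`T3` is conjugate to `ψ`).
`KeyA`: `f = 1` says `EE = (Q² - 3 Q + 1) + (Q - 1) X + Y = (A² + A⁻²) A ^ (2 e)` for all `A`; `A ↦ i A` shows
that `e` is odd.  `Sym`: with `G = diag (1, 1, Q - 2)` and `M = (1 + c J) D`: `Mᵀ G = G D (1 + c J)`, and the
inverse of `M (q)` is `D⁻¹ (1 + c' J)`, `c'`, `D⁻¹` the values at `1/q`; so the trace at `1/q` is the trace of the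
inverse, `X (1/q) = tr T3⁻¹`, `Y (1/q) = tr T2⁻¹ = q ^ (-e) Y (q)`, and
`det (1 - T3) = 1 - X (q) + q ^ e X (1/q) - q ^ e`.  Subtract from `KeyA` at `A` `q ^ e` times `KeyA` at `A⁻¹`:
`Y` cancels, and `(Q - 1) det (1 - T3) = Q (Q - 2) (1 - q ^ e) - (A² + A⁻²) (A ^ (2 e) - q ^ e A ^ (-2 e))`
(`Q² - 3 Q + 1 + Q - 1 = Q (Q - 2)`).  `Five`: as in `Pool/Agent/B4/Main.lean` (`no_matrices`, `three_roots`,
`two_roots` are used as they are), with the forms `diag (1, 1, Q - 2)`, `diag (1, Q - 1)`.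
-/

set_option autoImplicit false

open Matrix LaurentPolynomial Pool.RU Pool.Agent.FB.U5

namespace Pool.Agent.FB.AX

/-! ### the reduced Burau representation -/

/-- The reduced Burau matrices of `σ₁`, `σ₂`, `σ₃` (for `ε = 1`) and of their inverses (for `ε = -1`);
`T k` is `t ^ k`. -/
noncomputable def burauGen (x : Fin 3 × ℤˣ) : Matrix (Fin 3) (Fin 3) ℤ[T;T⁻¹] :=
  match x with
  | (0, ε) => !![-T (ε : ℤ), T (((ε : ℤ) - 1) / 2), 0; 0, 1, 0; 0, 0, 1]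
  | (1, ε) => !![1, 0, 0; T (((ε : ℤ) + 1) / 2), -T (ε : ℤ), T (((ε : ℤ) - 1) / 2); 0, 0, 1]
  | (2, ε) => !![1, 0, 0; 0, 1, 0; 0, T (((ε : ℤ) + 1) / 2), -T (ε : ℤ)]

/-- the reduced Burau matrix of a braid word -/
noncomputable def burau (w : List (Fin 3 × ℤˣ)) : Matrix (Fin 3) (Fin 3) ℤ[T;T⁻¹] :=
  (w.map burauGen).prod

/-- the Alexander polynomial: `1` if `|e| ≤ 3`, `- t³ + 2 t² + t - 3 + t⁻¹ + 2 t⁻² - t⁻³` otherwise -/
noncomputable def alex (e : ℤ) : ℤ[T;T⁻¹] :=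
  if |e| ≤ 3 then 1 else -T 3 + 2 * T 2 + T 1 - 3 + T (-1) + 2 * T (-2) - T (-3)

/-! ### the modules -/

/-- **Module KEYA**: what `f = 1` says (`KQ_EE` of `FB/Z1/KEYQ.lean` is private: copy) -/
def St_KeyA : Prop := ∀ (β : List (ℤ × ℤ × ℤ)) (o : Tip 3 (0 + (word β).length) → Bool),
  (closure β).IsOrientation o → (closure β).normalized o = 1 → Odd (W8.tot β) ∧
    ∀ A : ℂ, A ≠ 0 → A ^ 2 + A⁻¹ ^ 2 ≠ 0 →
      U5.EE ((A ^ 2 + A⁻¹ ^ 2) ^ 2) (β.map (wts (-A⁻¹ ^ 4))) = (A ^ 2 + A⁻¹ ^ 2) * A ^ (2 * W8.tot β)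

/-- the value of `Q` -/
noncomputable def Qpol (q : ℂ) : ℂ := 2 - q - q⁻¹

/-- the product of the blocks `T3` -/
noncomputable def P3 (q : ℂ) (β : List (ℤ × ℤ × ℤ)) : Matrix (Fin 3) (Fin 3) ℂ :=
  ((β.map (wts q)).map (U5.T3 (Qpol q))).prod

/-- the product of the blocks `T2` -/
noncomputable def P2 (q : ℂ) (β : List (ℤ × ℤ × ℤ)) : Matrix (Fin 2) (Fin 2) ℂ :=
  ((β.map (wts q)).map (U5.T2 (Qpol q))).prod

/-- **Module SYM**: the determinants, and the traces at `1/q` -/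
def St_Sym : Prop := ∀ (β : List (ℤ × ℤ × ℤ)) (q : ℂ), q ≠ 0 → Qpol q ≠ 0 → Qpol q ≠ 1 → Qpol q ≠ 2 →
  (P3 q β).det = q ^ W8.tot β ∧ (P2 q β).det = q ^ W8.tot β ∧
    (P2 q⁻¹ β).trace = q ^ (-W8.tot β) * (P2 q β).trace ∧
    (1 - P3 q β).det = 1 - (P3 q β).trace + q ^ W8.tot β * (P3 q⁻¹ β).trace - q ^ W8.tot β

/-- **Module UNI**: for `‖q‖ = 1` the products preserve Hermitian forms (they are positive definite for
`Q > 2`, `Q > 1`) -/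
def St_Uni : Prop := ∀ (β : List (ℤ × ℤ × ℤ)) (q : ℂ), ‖q‖ = 1 → Qpol q ≠ 0 →
  (P3 q β)ᴴ * Matrix.diagonal ![1, 1, Qpol q - 2] * P3 q β = Matrix.diagonal ![1, 1, Qpol q - 2] ∧
    (P2 q β)ᴴ * Matrix.diagonal ![1, Qpol q - 1] * P2 q β = Matrix.diagonal ![1, Qpol q - 1]

/-- **Module BUR**: `T3` is conjugate to the reduced Burau matrix, `q = -t` -/
def St_Bur : Prop := ∀ (β : List (ℤ × ℤ × ℤ)) (t : ℂˣ), Qpol (-(t : ℂ)) ≠ 0 → Qpol (-(t : ℂ)) ≠ 1 →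
  Qpol (-(t : ℂ)) ≠ 2 →
    ev t (1 - burau (word β)).det = (1 - P3 (-(t : ℂ)) β).det

/-- **Module FIVE** -/
def St_Five : Prop := ∀ (β : List (ℤ × ℤ × ℤ)) (o : Tip 3 (0 + (word β).length) → Bool),
  (closure β).IsOrientation o → (closure β).normalized o = 1 → |W8.tot β| ≤ 5

/-- **closed 4-braids with `f = 1`** -/
def St_Alex : Prop := ∀ (β : List (ℤ × ℤ × ℤ)) (o : Tip 3 (0 + (word β).length) → Bool),
  (closure β).IsOrientation o → (closure β).normalized o = 1 →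
    Odd (W8.tot β) ∧ |W8.tot β| ≤ 5 ∧ (1 - burau (word β)).det =
      T ((W8.tot β - 3) / 2) * (1 + T 1) * (1 + T 2) * alex (W8.tot β)

end Pool.Agent.FB.AX
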