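import Mathlib
import Pool.Agent.FB.AX.St

/-!
# FB/AX: module BUR
-/

set_option autoImplicit false

open Matrix LaurentPolynomial Pool.RU Pool.Agent.FB.U5

namespace Pool.Agent.FB.AX

/-- the evaluation homomorphism -/
noncomputable def bur_E (t : ℂˣ) : ℤ[T;T⁻¹] →+* ℂ := LaurentPolynomial.eval₂ (Int.castRingHom ℂ) t

theorem bur_T (t : ℂˣ) (n : ℤ) : bur_E t (T n) = (t : ℂ) ^ n := by
  unfold bur_E
  rw [LaurentPolynomial.eval₂_T]
  simp

/-- the conjugating matrix -/
noncomputable def bur_S (t : ℂ) : Matrix (Fin 3) (Fin 3) ℂ :=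
  !![-t * (1 + t), t, 0; 0, t, -(1 + t); 0, t, 0]

/-- powers of the generators -/
noncomputable def bur_K (q : ℂ) (i : Fin 3) (n : ℤ) : Matrix (Fin 3) (Fin 3) ℂ :=
  match i with
  | 0 => !![q ^ n, 0, 0; 0, 1, 0; 0, 0, 1]
  | 1 => 1 + ((q ^ n - 1) / Qpol q) • !![1, 1, Qpol q - 2; 1, 1, Qpol q - 2; 1, 1, Qpol q - 2]
  | 2 => !![1, 0, 0; 0, q ^ n, 0; 0, 0, 1]

theorem bur_K_zero (q : ℂ) (i : Fin 3) : bur_K q i 0 = 1 := by
  fin_cases i
  · simp only [bur_K, zpow_zero]
    ext a b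
    fin_cases a <;> fin_cases b <;> simp
  · simp [bur_K]
  · simp only [bur_K, zpow_zero]
    ext a b
    fin_cases a <;> fin_cases b <;> simp

theorem bur_K_add (q : ℂ) (hq : q ≠ 0) (hQ : Qpol q ≠ 0) (i : Fin 3) (m n : ℤ) :
    bur_K q i (m + n) = bur_K q i m * bur_K q i n := by
  fin_cases i
  · simp only [bur_K, zpow_add₀ hq]
    ext a b
    fin_cases a <;> fin_cases b <;> simp [Matrix.mul_apply, Fin.sum_univ_three]
  · simp only [bur_K, zpow_add₀ hq]
    generalize q ^ m = x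
    generalize q ^ n = y
    generalize Qpol q = Q at *
    ext a b
    fin_cases a <;> fin_cases b <;> simp [Matrix.mul_apply, Fin.sum_univ_three] <;> field_simp <;>
      ring
  · simp only [bur_K, zpow_add₀ hq]
    ext a b
    fin_cases a <;> fin_cases b <;> simp [Matrix.mul_apply, Fin.sum_univ_three]

theorem bur_Q (t : ℂ) (ht : t ≠ 0) : Qpol (-t) = (1 + t) ^ 2 / t := by
  unfold Qpol
  field_simp
  ring

theorem bur_gen (t : ℂˣ) (hQ : Qpol (-(t : ℂ)) ≠ 0) (i : Fin 3) (ε : ℤˣ) :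
    bur_S t * (burauGen (i, ε)).map (bur_E t) = bur_K (-(t : ℂ)) i ε * bur_S t := by
  have ht : (t : ℂ) ≠ 0 := t.ne_zero
  have h1 : (1 : ℂ) + t ≠ 0 := by
    intro h
    apply hQ
    rw [bur_Q _ ht, h]
    simp
  rcases Int.units_eq_one_or ε with rfl | rfl
  · fin_cases i
    · simp only [burauGen, bur_K]
      ext a b
      fin_cases a <;> fin_cases b <;> simp [Matrix.mul_apply, Fin.sum_univ_three, bur_S, bur_T] <;>
        ring
    · simp only [burauGen, bur_K, bur_Q _ ht]
      ext a b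
      fin_cases a <;> fin_cases b <;> simp [Matrix.mul_apply, Fin.sum_univ_three, bur_S, bur_T] <;>
        field_simp <;> ring
    · simp only [burauGen, bur_K]
      ext a b
      fin_cases a <;> fin_cases b <;> simp [Matrix.mul_apply, Fin.sum_univ_three, bur_S, bur_T] <;>
        ring
  · fin_cases i
    · simp only [burauGen, bur_K]
      ext a b
      fin_cases a <;> fin_cases b <;> simp [Matrix.mul_apply, Fin.sum_univ_three, bur_S, bur_T] <;>
        field_simp <;> ring
    · simp only [burauGen, bur_K, bur_Q _ ht]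
      ext a b
      fin_cases a <;> fin_cases b <;> simp [Matrix.mul_apply, Fin.sum_univ_three, bur_S, bur_T] <;>
        field_simp <;> ring
    · simp only [burauGen, bur_K]
      ext a b
      fin_cases a <;> fin_cases b <;> simp [Matrix.mul_apply, Fin.sum_univ_three, bur_S, bur_T] <;>
        field_simp

/-- the evaluated Burau matrix -/
noncomputable def bur_M (t : ℂˣ) (w : List (Fin 3 × ℤˣ)) : Matrix (Fin 3) (Fin 3) ℂ :=
  (bur_E t).mapMatrix (burau w)

theorem bur_M_append (t : ℂˣ) (v w : List (Fin 3 × ℤˣ)) :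
    bur_M t (v ++ w) = bur_M t v * bur_M t w := by
  unfold bur_M burau
  rw [List.map_append, List.prod_append, map_mul]

theorem bur_M_nil (t : ℂˣ) : bur_M t [] = 1 := by
  unfold bur_M burau
  rw [List.map_nil, List.prod_nil, map_one]

theorem bur_rep (t : ℂˣ) (hQ : Qpol (-(t : ℂ)) ≠ 0) (i : Fin 3) (ε : ℤˣ) (n : ℕ) :
    bur_S t * bur_M t (List.replicate n (i, ε)) =
      bur_K (-(t : ℂ)) i ((n : ℤ) * ε) * bur_S t := by
  have ht : -(t : ℂ) ≠ 0 := neg_ne_zero.2 t.ne_zero
  induction n with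
  | zero =>
    rw [List.replicate_zero, bur_M_nil, Nat.cast_zero, zero_mul, bur_K_zero, one_mul, mul_one]
  | succ n ih =>
    rw [List.replicate_succ', bur_M_append, ← mul_assoc, ih, mul_assoc]
    have h : bur_M t [(i, ε)] = (burauGen (i, ε)).map (bur_E t) := by
      unfold bur_M burau
      rw [List.map_singleton, List.prod_singleton]
      rfl
    rw [h, bur_gen t hQ, ← mul_assoc, ← bur_K_add _ ht hQ]
    congr 2
    push_cast
    ring

theorem bur_syl (t : ℂˣ) (hQ : Qpol (-(t : ℂ)) ≠ 0) (i : Fin 3) (a : ℤ) :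
    bur_S t * bur_M t (syllable i a) = bur_K (-(t : ℂ)) i a * bur_S t := by
  unfold syllable
  rw [bur_rep t hQ]
  congr 2
  split_ifs with h
  · rw [Int.natCast_natAbs, abs_of_nonneg h]
    simp
  · rw [Int.natCast_natAbs, abs_of_neg (not_le.1 h)]
    simp

theorem bur_T3 (q : ℂ) (b : ℤ × ℤ × ℤ) : U5.T3 (Qpol q) (wts q b) =
    bur_K q 1 b.2.2 * (bur_K q 0 b.1 * bur_K q 2 b.2.1) := by
  have h : bur_K q 0 b.1 * bur_K q 2 b.2.1 = Matrix.diagonal ![q ^ b.1, q ^ b.2.1, 1] := by
    simp only [bur_K]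
    ext i j
    fin_cases i <;> fin_cases j <;> simp [Matrix.mul_apply, Fin.sum_univ_three]
  rw [h]
  rfl

theorem bur_word (t : ℂˣ) (hQ : Qpol (-(t : ℂ)) ≠ 0) (β : List (ℤ × ℤ × ℤ)) :
    bur_S t * bur_M t (word β) = P3 (-(t : ℂ)) β * bur_S t := by
  induction β with
  | nil =>
    unfold word P3
    rw [List.map_nil, List.flatten_nil, bur_M_nil, List.map_nil, List.map_nil, List.prod_nil,
      one_mul, mul_one]
  | cons b β ih =>
    have h1 : word (b :: β) = (syllable 1 b.2.2 ++ (syllable 0 b.1 ++ syllable 2 b.2.1)) ++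
        word β := rfl
    have h2 : P3 (-(t : ℂ)) (b :: β) = U5.T3 (Qpol (-(t : ℂ))) (wts (-(t : ℂ)) b) *
        P3 (-(t : ℂ)) β := rfl
    rw [h1, h2, bur_T3, bur_M_append, bur_M_append, bur_M_append]
    calc bur_S t * (bur_M t (syllable 1 b.2.2) * (bur_M t (syllable 0 b.1) *
          bur_M t (syllable 2 b.2.1)) * bur_M t (word β))
        = (bur_S t * bur_M t (syllable 1 b.2.2)) * bur_M t (syllable 0 b.1) *
          bur_M t (syllable 2 b.2.1) * bur_M t (word β) := by simp only [mul_assoc]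
      _ = bur_K (-(t : ℂ)) 1 b.2.2 * (bur_S t * bur_M t (syllable 0 b.1)) *
          bur_M t (syllable 2 b.2.1) * bur_M t (word β) := by
        rw [bur_syl t hQ]
        simp only [mul_assoc]
      _ = bur_K (-(t : ℂ)) 1 b.2.2 * bur_K (-(t : ℂ)) 0 b.1 * (bur_S t *
          bur_M t (syllable 2 b.2.1)) * bur_M t (word β) := by
        rw [bur_syl t hQ]
        simp only [mul_assoc]
      _ = bur_K (-(t : ℂ)) 1 b.2.2 * bur_K (-(t : ℂ)) 0 b.1 * bur_K (-(t : ℂ)) 2 b.2.1 *
          (bur_S t * bur_M t (word β)) := by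
        rw [bur_syl t hQ]
        simp only [mul_assoc]
      _ = _ := by
        rw [ih]
        simp only [mul_assoc]

theorem bur_det (t : ℂ) : (bur_S t).det = -(t ^ 2 * (1 + t) ^ 2) := by
  unfold bur_S
  rw [Matrix.det_fin_three]
  simp
  ring

theorem thm_Bur : St_Bur := by
  intro β t hQ0 _ _
  have ht : (t : ℂ) ≠ 0 := t.ne_zero
  have h1 : (1 : ℂ) + t ≠ 0 := by
    intro h
    apply hQ0
    rw [bur_Q _ ht, h]
    simp
  have hS : (bur_S t).det ≠ 0 := by
    rw [bur_det]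
    exact neg_ne_zero.2 (mul_ne_zero (pow_ne_zero _ ht) (pow_ne_zero _ h1))
  have e1 : ev t (1 - burau (word β)).det = (1 - bur_M t (word β)).det := by
    change bur_E t (1 - burau (word β)).det = _
    rw [RingHom.map_det, map_sub, map_one]
    rfl
  rw [e1]
  have e2 : bur_S t * (1 - bur_M t (word β)) = (1 - P3 (-(t : ℂ)) β) * bur_S t := by
    rw [mul_sub, sub_mul, bur_word t hQ0, mul_one, one_mul]
  have e3 := congrArg Matrix.det e2
  rw [Matrix.det_mul, Matrix.det_mul, mul_comm] at e3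
  exact mul_right_cancel₀ hS e3

end Pool.Agent.FB.AX
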