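import Pool.Agent.FB.AX.St

/-!
# FB/AX, module FIN: the Alexander polynomial of a closed 4-braid with `f = 1`
-/

set_option autoImplicit false

open Matrix LaurentPolynomial Pool.RU Pool.Agent.FB.U5

namespace Pool.Agent.FB.AX

/-- a Laurent polynomial with infinitely many zeros is zero -/
private theorem FN_zero (f : ℤ[T;T⁻¹]) (p : ℕ → ℂˣ) (hp : Function.Injective p)
    (h : ∀ n, ev (p n) f = 0) : f = 0 := by
  obtain ⟨k, g, hg⟩ := LaurentPolynomial.exists_T_pow f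
  have h1 : ∀ n, Polynomial.eval₂ (Int.castRingHom ℂ) (p n : ℂ) g = 0 := by
    intro n
    have h2 : LaurentPolynomial.eval₂ (Int.castRingHom ℂ) (p n) (Polynomial.toLaurent g) =
        Polynomial.eval₂ (Int.castRingHom ℂ) (p n : ℂ) g := by
      rw [LaurentPolynomial.eval₂_toLaurent]
    rw [← h2, hg, map_mul]
    have h3 : LaurentPolynomial.eval₂ (Int.castRingHom ℂ) (p n) f = 0 := h n
    rw [h3, zero_mul]
  have h2 : g.map (Int.castRingHom ℂ) = 0 := by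
    refine Polynomial.eq_zero_of_infinite_isRoot _ ?_
    refine Set.infinite_of_injective_forall_mem (f := fun n => ((p n : ℂˣ) : ℂ))
      (fun a b hab => hp (Units.ext hab)) fun n => ?_
    rw [Set.mem_ofPred_eq, Polynomial.IsRoot.def, Polynomial.eval_map]
    exact h1 n
  have h3 : g = 0 := by
    refine Polynomial.map_injective (Int.castRingHom ℂ) (RingHom.injective_int _) ?_
    rw [h2, Polynomial.map_zero]
  rw [h3, map_zero] at hg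
  have h4 : f * T k * T (-k) = 0 := by
    rw [← hg, zero_mul]
  rwa [mul_assoc, ← T_add, add_neg_cancel, T_zero, mul_one] at h4

/-- the points -/
private noncomputable def FN_pt (n : ℕ) : ℂˣ :=
  Units.mk0 (((n : ℂ) + 1) ^ 4) (pow_ne_zero 4 (Nat.cast_add_one_ne_zero n))

private theorem FN_inj : Function.Injective FN_pt := by
  intro a b h
  have h1 : ((a : ℂ) + 1) ^ 4 = ((b : ℂ) + 1) ^ 4 := congrArg Units.val h
  have h2 : (a + 1) ^ 4 = (b + 1) ^ 4 := by exact_mod_cast h1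
  have h3 : a + 1 = b + 1 := Nat.pow_left_injective (n := 4) (by norm_num) h2
  omega

private theorem FN_ev (t : ℂˣ) (f : ℤ[T;T⁻¹]) :
    ev t f = LaurentPolynomial.eval₂ (Int.castRingHom ℂ) t f := rfl

private theorem FN_T (t : ℂˣ) (k : ℤ) : ev t (T k) = (t : ℂ) ^ k := by
  unfold ev
  rw [LaurentPolynomial.eval₂_T, Units.val_zpow_eq_zpow_val]

/-- the value of the right side -/
private theorem FN_rhs (t : ℂˣ) (k : ℤ) (g : ℤ[T;T⁻¹]) :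
    ev t (T k * (1 + T 1) * (1 + T 2) * g) = (t : ℂ) ^ k * (1 + t) * (1 + (t : ℂ) ^ 2) * ev t g := by
  have h1 : (t : ℂ) ^ (1 : ℤ) = t := zpow_one _
  have h2 : (t : ℂ) ^ (2 : ℤ) = (t : ℂ) ^ 2 := by norm_cast
  rw [FN_ev, map_mul, map_mul, map_mul, map_add, map_add, map_one, ← FN_ev, ← FN_ev, ← FN_ev,
    ← FN_ev, FN_T, FN_T, FN_T, h1, h2]

private theorem FN_alex1 (t : ℂˣ) {e : ℤ} (he : |e| ≤ 3) : ev t (alex e) = 1 := by
  unfold alex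
  rw [if_pos he, FN_ev, map_one]

private theorem FN_alex5 (t : ℂˣ) {e : ℤ} (he : ¬ |e| ≤ 3) :
    ev t (alex e) = -(t : ℂ) ^ 3 + 2 * (t : ℂ) ^ 2 + t - 3 + (t : ℂ)⁻¹ + 2 * ((t : ℂ)⁻¹) ^ 2 -
      ((t : ℂ)⁻¹) ^ 3 := by
  have h1 : (t : ℂ) ^ (1 : ℤ) = t := zpow_one _
  have h2 : (t : ℂ) ^ (2 : ℤ) = (t : ℂ) ^ 2 := by norm_cast
  have h3 : (t : ℂ) ^ (3 : ℤ) = (t : ℂ) ^ 3 := by norm_cast
  have h4 : (t : ℂ) ^ (-1 : ℤ) = (t : ℂ)⁻¹ := _root_.zpow_neg_one _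
  have h5 : (t : ℂ) ^ (-2 : ℤ) = ((t : ℂ)⁻¹) ^ 2 := by
    rw [_root_.zpow_neg, ← _root_.inv_zpow]
    norm_cast
  have h6 : (t : ℂ) ^ (-3 : ℤ) = ((t : ℂ)⁻¹) ^ 3 := by
    rw [_root_.zpow_neg, ← _root_.inv_zpow]
    norm_cast
  have k : ∀ j : ℤ, LaurentPolynomial.eval₂ (Int.castRingHom ℂ) t (T j) = (t : ℂ) ^ j := FN_T t
  have h7 : LaurentPolynomial.eval₂ (Int.castRingHom ℂ) t 2 = 2 := map_ofNat _ 2
  have h8 : LaurentPolynomial.eval₂ (Int.castRingHom ℂ) t 3 = 3 := map_ofNat _ 3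
  unfold alex
  rw [if_neg he, FN_ev, map_sub, map_add, map_add, map_sub, map_add, map_add, map_neg, map_mul,
    map_mul, k, k, k, k, k, k, h7, h8, h1, h2, h3, h4, h5, h6]

/-- the equation for the determinant -/
private theorem FN_alg {Q X X' Y Y' q' s a b D : ℂ}
    (h1 : (Q ^ 2 - 3 * Q + 1) - (1 - Q) * X + Y = s * a)
    (h2 : (Q ^ 2 - 3 * Q + 1) - (1 - Q) * X' + Y' = s * b)
    (hY : q' * Y' = Y) (hD : D = 1 - X + q' * X' - q') :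
    (Q - 1) * D = Q * (Q - 2) * (1 - q') - s * (a - q' * b) := by
  subst hD
  linear_combination -h1 + q' * h2 - hY

/-- **the Alexander polynomial** -/
theorem alex_of (hKey : St_KeyA) (hSym : St_Sym) (hBur : St_Bur) (hFive : St_Five) : St_Alex := by
  intro β o ho hn
  obtain ⟨hodd, hE⟩ := hKey β o ho hn
  have h5 := hFive β o ho hn
  refine ⟨hodd, h5, ?_⟩
  obtain ⟨e, he⟩ : ∃ e, e = W8.tot β := ⟨_, rfl⟩
  rw [← he] at hodd h5 ⊢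
  rw [← sub_eq_zero]
  refine FN_zero _ FN_pt FN_inj fun n => ?_
  rw [FN_ev, map_sub, ← FN_ev, ← FN_ev, sub_eq_zero, FN_rhs]
  obtain ⟨m, hm⟩ : ∃ m : ℂ, m = (n : ℂ) + 1 := ⟨_, rfl⟩
  have hm0 : m ≠ 0 := by
    rw [hm]
    exact Nat.cast_add_one_ne_zero n
  have ht : ((FN_pt n : ℂˣ) : ℂ) = m ^ 4 := by
    rw [hm]
    rfl
  -- the value of Q
  obtain ⟨q, hq⟩ : ∃ q : ℂ, q = -(m ^ 4) := ⟨_, rfl⟩
  have hq0 : q ≠ 0 := by
    rw [hq]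
    exact neg_ne_zero.2 (pow_ne_zero 4 hm0)
  obtain ⟨s, hs⟩ : ∃ s : ℂ, s = m⁻¹ ^ 2 + m⁻¹⁻¹ ^ 2 := ⟨_, rfl⟩
  have hs' : s = m ^ 2 + m⁻¹ ^ 2 := by
    rw [hs, inv_inv, add_comm]
  have hQ : Qpol q = s ^ 2 := by
    unfold Qpol
    rw [hs', hq]
    field_simp
    ring
  have hQi : Qpol q⁻¹ = s ^ 2 := by
    rw [← hQ]
    unfold Qpol
    rw [inv_inv]
    ring
  have hreal : ∃ y : ℝ, 0 < y ∧ Qpol q = ((2 + y : ℝ) : ℂ) := by
    refine ⟨((n : ℝ) + 1) ^ 4 + (((n : ℝ) + 1) ^ 4)⁻¹, by positivity, ?_⟩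
    unfold Qpol
    rw [hq, hm]
    push_cast
    rw [inv_neg]
    ring
  obtain ⟨y, hy, hQy⟩ := hreal
  have g0 : Qpol q ≠ 0 := by
    rw [hQy]
    intro h
    have : (2 + y : ℝ) = 0 := by exact_mod_cast h
    linarith
  have g1 : Qpol q ≠ 1 := by
    rw [hQy]
    intro h
    have : (2 + y : ℝ) = 1 := by exact_mod_cast h
    linarith
  have g2 : Qpol q ≠ 2 := by
    rw [hQy]
    intro h
    have : (2 + y : ℝ) = 2 := by exact_mod_cast h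
    linarith
  have hs0 : s ≠ 0 := by
    intro h
    rw [h] at hQ
    apply g0
    rw [hQ]
    norm_num
  -- the determinants
  obtain ⟨-, -, hY, hD⟩ := hSym β q hq0 g0 g1 g2
  have hB := hBur β (FN_pt n) (by rw [ht, ← hq]; exact g0) (by rw [ht, ← hq]; exact g1)
    (by rw [ht, ← hq]; exact g2)
  rw [ht, ← hq] at hB
  rw [hB, ht]
  rw [← he] at hY hD hE
  -- what `f = 1` says
  have hE1 := hE m⁻¹ (inv_ne_zero hm0) (by rw [← hs]; exact hs0)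
  have hE2 := hE m hm0 (by rw [← hs']; exact hs0)
  have e1 : (-m⁻¹⁻¹ ^ 4 : ℂ) = q := by
    rw [inv_inv, hq]
  have e2 : (-m⁻¹ ^ 4 : ℂ) = q⁻¹ := by
    rw [hq, inv_neg, inv_pow]
  rw [← hs, e1, ← hQ] at hE1
  rw [← hs', e2] at hE2
  have hE1' : (Qpol q ^ 2 - 3 * Qpol q + 1) - (1 - Qpol q) * (P3 q β).trace + (P2 q β).trace =
      s * m⁻¹ ^ (2 * e) := hE1
  have hE2' : (Qpol q ^ 2 - 3 * Qpol q + 1) - (1 - Qpol q) * (P3 q⁻¹ β).trace + (P2 q⁻¹ β).trace =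
      s * m ^ (2 * e) := by
    rw [← hE2]
    unfold P3 P2 U5.EE
    rw [hQ, hQi]
  have hYY : q ^ e * (P2 q⁻¹ β).trace = (P2 q β).trace := by
    rw [hY, ← mul_assoc, ← zpow_add₀ hq0, add_neg_cancel, zpow_zero, one_mul]
  have key := FN_alg hE1' hE2' hYY hD
  have hqe : q ^ e = -(m ^ (4 * e)) := by
    rw [hq, hodd.neg_zpow, _root_.zpow_mul]
    norm_cast
  rw [hqe, hQ] at key
  have hne : s ^ 2 - 1 ≠ 0 := by
    rw [← hQ]
    exact sub_ne_zero.2 g1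
  apply mul_left_cancel₀ hne
  rw [key, hs']
  have hcase : e = -5 ∨ e = -3 ∨ e = -1 ∨ e = 1 ∨ e = 3 ∨ e = 5 := by
    obtain ⟨k, hk⟩ := hodd
    have := abs_le.1 h5
    omega
  have z1 : ∀ k : ℕ, m ^ (-(k : ℤ)) = (m⁻¹) ^ k := fun k => by
    rw [_root_.zpow_neg, zpow_natCast, inv_pow]
  have z2 : ∀ k : ℕ, m⁻¹ ^ (-(k : ℤ)) = m ^ k := fun k => by
    rw [_root_.zpow_neg, zpow_natCast, inv_pow, inv_inv]
  have z3 : ∀ k : ℕ, (m ^ 4) ^ (-(k : ℤ)) = (m⁻¹) ^ (4 * k) := fun k => by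
    rw [_root_.zpow_neg, zpow_natCast, ← pow_mul, inv_pow]
  rcases hcase with h | h | h | h | h | h
  · rw [h, FN_alex5 _ (by norm_num), ht]
    have a1 : m⁻¹ ^ (2 * -5 : ℤ) = m ^ 10 := z2 10
    have a2 : m ^ (2 * -5 : ℤ) = m⁻¹ ^ 10 := z1 10
    have a3 : m ^ (4 * -5 : ℤ) = m⁻¹ ^ 20 := z1 20
    have a4 : (m ^ 4) ^ ((-5 - 3) / 2 : ℤ) = m⁻¹ ^ 16 := z3 4
    rw [a1, a2, a3, a4]
    field_simp
    ring
  · rw [h, FN_alex1 _ (by norm_num)]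
    have a1 : m⁻¹ ^ (2 * -3 : ℤ) = m ^ 6 := z2 6
    have a2 : m ^ (2 * -3 : ℤ) = m⁻¹ ^ 6 := z1 6
    have a3 : m ^ (4 * -3 : ℤ) = m⁻¹ ^ 12 := z1 12
    have a4 : (m ^ 4) ^ ((-3 - 3) / 2 : ℤ) = m⁻¹ ^ 12 := z3 3
    rw [a1, a2, a3, a4]
    field_simp
    ring
  · rw [h, FN_alex1 _ (by norm_num)]
    have a1 : m⁻¹ ^ (2 * -1 : ℤ) = m ^ 2 := z2 2
    have a2 : m ^ (2 * -1 : ℤ) = m⁻¹ ^ 2 := z1 2
    have a3 : m ^ (4 * -1 : ℤ) = m⁻¹ ^ 4 := z1 4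
    have a4 : (m ^ 4) ^ ((-1 - 3) / 2 : ℤ) = m⁻¹ ^ 8 := z3 2
    rw [a1, a2, a3, a4]
    field_simp
    ring
  · rw [h, FN_alex1 _ (by norm_num)]
    have a1 : m⁻¹ ^ (2 * 1 : ℤ) = m⁻¹ ^ 2 := by norm_cast
    have a2 : m ^ (2 * 1 : ℤ) = m ^ 2 := by norm_cast
    have a3 : m ^ (4 * 1 : ℤ) = m ^ 4 := by norm_cast
    have a4 : (m ^ 4) ^ ((1 - 3) / 2 : ℤ) = m⁻¹ ^ 4 := z3 1
    rw [a1, a2, a3, a4]
    field_simp
    ring
  · rw [h, FN_alex1 _ (by norm_num)]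
    have a1 : m⁻¹ ^ (2 * 3 : ℤ) = m⁻¹ ^ 6 := by norm_cast
    have a2 : m ^ (2 * 3 : ℤ) = m ^ 6 := by norm_cast
    have a3 : m ^ (4 * 3 : ℤ) = m ^ 12 := by norm_cast
    have a4 : (m ^ 4) ^ ((3 - 3) / 2 : ℤ) = 1 := by norm_num
    rw [a1, a2, a3, a4]
    field_simp
    ring
  · rw [h, FN_alex5 _ (by norm_num), ht]
    have a1 : m⁻¹ ^ (2 * 5 : ℤ) = m⁻¹ ^ 10 := by norm_cast
    have a2 : m ^ (2 * 5 : ℤ) = m ^ 10 := by norm_cast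
    have a3 : m ^ (4 * 5 : ℤ) = m ^ 20 := by norm_cast
    have a4 : (m ^ 4) ^ ((5 - 3) / 2 : ℤ) = m ^ 4 := by norm_num
    rw [a1, a2, a3, a4]
    field_simp
    ring

end Pool.Agent.FB.AX
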