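import Pool.Agent.FB.AX.St
import Pool.Agent.B4.Main

/-!
# FB/AX, module FIVE: the exponent sum of a closed 4-braid with `f = 1` is at most five

Transcription of `Pool/Agent/B4/Main.lean`, with `A = exp (-π i / (3 e))`, the blocks `T3`, `T2` and the forms
`diag (1, 1, Q - 2)`, `diag (1, Q - 1)`.
-/

set_option autoImplicit false

open Matrix LaurentPolynomial Pool.RU Pool.Agent.FB.U5

namespace Pool.Agent.FB.AX

private theorem five_pos3 {g : ℝ} (hg : 0 < g) (v : Fin 3 → ℂ) (hv : v ≠ 0) :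
    star v ⬝ᵥ (Matrix.diagonal ![1, 1, (g : ℂ)] *ᵥ v) ≠ 0 := by
  have h1 : star v ⬝ᵥ (Matrix.diagonal ![1, 1, (g : ℂ)] *ᵥ v) =
      ((Complex.normSq (v 0) + Complex.normSq (v 1) + g * Complex.normSq (v 2) : ℝ) : ℂ) := by
    simp only [dotProduct, Fin.sum_univ_three, Matrix.mulVec_diagonal, Pi.star_apply]
    push_cast
    rw [Complex.normSq_eq_conj_mul_self, Complex.normSq_eq_conj_mul_self,
      Complex.normSq_eq_conj_mul_self]
    simp
    ring
  rw [h1]
  intro h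
  have h2 : Complex.normSq (v 0) + Complex.normSq (v 1) + g * Complex.normSq (v 2) = 0 := by
    exact_mod_cast h
  have n0 := Complex.normSq_nonneg (v 0)
  have n1 := Complex.normSq_nonneg (v 1)
  have n2 := Complex.normSq_nonneg (v 2)
  have n3 := mul_nonneg hg.le n2
  apply hv
  funext i
  have e0 : Complex.normSq (v 0) = 0 := by linarith
  have e1 : Complex.normSq (v 1) = 0 := by linarith
  have e2 : Complex.normSq (v 2) = 0 := by
    have : g * Complex.normSq (v 2) = 0 := by linarith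
    exact (mul_eq_zero.1 this).resolve_left hg.ne'
  fin_cases i
  · exact Complex.normSq_eq_zero.1 e0
  · exact Complex.normSq_eq_zero.1 e1
  · exact Complex.normSq_eq_zero.1 e2

private theorem five_pos2 {g : ℝ} (hg : 0 < g) (v : Fin 2 → ℂ) (hv : v ≠ 0) :
    star v ⬝ᵥ (Matrix.diagonal ![1, (g : ℂ)] *ᵥ v) ≠ 0 := by
  have h1 : star v ⬝ᵥ (Matrix.diagonal ![1, (g : ℂ)] *ᵥ v) =
      ((Complex.normSq (v 0) + g * Complex.normSq (v 1) : ℝ) : ℂ) := by
    simp only [dotProduct, Fin.sum_univ_two, Matrix.mulVec_diagonal, Pi.star_apply]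
    push_cast
    rw [Complex.normSq_eq_conj_mul_self, Complex.normSq_eq_conj_mul_self]
    simp
    ring
  rw [h1]
  intro h
  have h2 : Complex.normSq (v 0) + g * Complex.normSq (v 1) = 0 := by
    exact_mod_cast h
  have n0 := Complex.normSq_nonneg (v 0)
  have n1 := Complex.normSq_nonneg (v 1)
  have n3 := mul_nonneg hg.le n1
  apply hv
  funext i
  have e0 : Complex.normSq (v 0) = 0 := by linarith
  have e1 : Complex.normSq (v 1) = 0 := by
    have : g * Complex.normSq (v 1) = 0 := by linarith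
    exact (mul_eq_zero.1 this).resolve_left hg.ne'
  fin_cases i
  · exact Complex.normSq_eq_zero.1 e0
  · exact Complex.normSq_eq_zero.1 e1

/-- scaling by a unimodular number keeps a Hermitian form -/
private theorem five_smul {n : ℕ} {G M : Matrix (Fin n) (Fin n) ℂ} (hM : Mᴴ * G * M = G) {κ : ℂ}
    (hκ : (starRingEnd ℂ) κ * κ = 1) : (κ • M)ᴴ * G * (κ • M) = G := by
  rw [Matrix.conjTranspose_smul, Matrix.smul_mul, Matrix.smul_mul, Matrix.mul_smul, smul_smul, hM]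
  have h1 : star κ * κ = 1 := hκ
  rw [h1, one_smul]

theorem thm_Five : St_KeyA → St_Sym → St_Uni → St_Five := by
  intro hK hS hU β o ho hn
  obtain ⟨hodd, hEE⟩ := hK β o ho hn
  set e : ℤ := W8.tot β with he
  by_contra hc
  push Not at hc
  have h7 : 7 ≤ |e| := by
    obtain ⟨j, hj⟩ := hodd
    rcases abs_cases e with ⟨h2, _⟩ | ⟨h2, _⟩ <;> rw [h2] at hc ⊢ <;> omega
  have he0 : e ≠ 0 := by
    rintro h
    rw [h] at h7
    norm_num at h7
  set A : ℂ := (B4.pt e : ℂ) with hA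
  have hA0 : A ≠ 0 := (B4.pt e).ne_zero
  have hAu : (starRingEnd ℂ) A * A = 1 := B4.pt_unit e
  have hAn : ‖A‖ = 1 := by
    have h1 : ‖(starRingEnd ℂ) A * A‖ = 1 := by rw [hAu, norm_one]
    rw [norm_mul, RCLike.norm_conj] at h1
    nlinarith [norm_nonneg A]
  set a : ℝ := 2 * Real.cos (2 * (Real.pi / (3 * e))) with ha
  have ha1 : 191 / 100 ≤ a := B4.cos_bound h7
  have haA : (a : ℂ) = A ^ 2 + A⁻¹ ^ 2 := B4.pt_cos e
  set κ : ℂ := A ^ e with hκd
  have hκ : κ = ⟨1 / 2, -(√3 / 2)⟩ := by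
    have h1 := B4.pt_pow he0
    rw [Units.val_zpow_eq_zpow_val] at h1
    exact h1
  have hr : (√3 : ℝ) ^ 2 = 3 := Real.sq_sqrt (by norm_num)
  have hκ3 : κ ^ 3 = -1 := by
    rw [hκ]
    apply Complex.ext
    · simp only [pow_succ, pow_zero, one_mul, Complex.mul_re, Complex.mul_im, Complex.neg_re,
        Complex.one_re]
      linear_combination (-(3 / 8)) * hr
    · simp only [pow_succ, pow_zero, one_mul, Complex.mul_re, Complex.mul_im, Complex.neg_im,
        Complex.one_im]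
      linear_combination (√3 / 8) * hr
  have hκc : (starRingEnd ℂ) κ * κ = 1 := by
    rw [hκd, map_zpow₀, ← mul_zpow, hAu, _root_.one_zpow]
  have hκ0 : κ ≠ 0 := by
    intro h
    rw [h, mul_zero] at hκc
    exact zero_ne_one hκc
  have hκi : κ⁻¹ = (starRingEnd ℂ) κ := (eq_inv_of_mul_eq_one_left hκc).symm
  have ha2 : (3 : ℝ) < a ^ 2 := by nlinarith
  -- the point `q`
  set q : ℂ := -A⁻¹ ^ 4 with hq
  have hq0 : q ≠ 0 := neg_ne_zero.2 (pow_ne_zero _ (inv_ne_zero hA0))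
  have hqn : ‖q‖ = 1 := by
    rw [hq, norm_neg, norm_pow, norm_inv, hAn, inv_one, one_pow]
  have hQ : Qpol q = ((a ^ 2 : ℝ) : ℂ) := by
    unfold Qpol
    rw [hq]
    push_cast
    rw [haA]
    field_simp
    ring
  have hQ0 : Qpol q ≠ 0 := by
    rw [hQ]
    intro h
    have : a ^ 2 = 0 := by exact_mod_cast h
    linarith
  have hQ1 : Qpol q ≠ 1 := by
    rw [hQ]
    intro h
    have : a ^ 2 = 1 := by exact_mod_cast h
    linarith
  have hQ2 : Qpol q ≠ 2 := by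
    rw [hQ]
    intro h
    have : a ^ 2 = 2 := by exact_mod_cast h
    linarith
  have hqe : q ^ e = κ⁻¹ := by
    have h1 : q ^ e = (-1) ^ e * (A ^ e)⁻¹ ^ 4 := by
      rw [hq, show (-A⁻¹ ^ 4 : ℂ) = (-1) * A⁻¹ ^ 4 by ring, mul_zpow]
      congr 1
      rw [← zpow_natCast A⁻¹ 4, ← zpow_natCast (A ^ e)⁻¹ 4, ← _root_.zpow_mul, ← _root_.inv_zpow,
        ← _root_.zpow_mul, mul_comm]
    rw [h1, hodd.neg_one_zpow, ← hκd]
    have h2 : κ⁻¹ ^ 3 = -1 := by
      rw [inv_pow, hκ3]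
      norm_num
    calc (-1 : ℂ) * κ⁻¹ ^ 4 = -(κ⁻¹ ^ 3) * κ⁻¹ := by ring
      _ = κ⁻¹ := by rw [h2]; ring
  obtain ⟨hd3, hd2, -, -⟩ := hS β q hq0 hQ0 hQ1 hQ2
  rw [← he, hqe] at hd3 hd2
  obtain ⟨hu3, hu2⟩ := hU β q hqn hQ0
  -- the equation
  have hne : A ^ 2 + A⁻¹ ^ 2 ≠ 0 := by
    rw [← haA]
    intro h
    have : a = 0 := by exact_mod_cast h
    linarith
  have hE := hEE A hA0 hne
  have hE1 : A ^ (2 * e) = κ ^ 2 := by
    rw [hκd, ← zpow_natCast (A ^ e) 2, ← _root_.zpow_mul, mul_comm]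
    norm_num
  have hE2 : (A ^ 2 + A⁻¹ ^ 2) ^ 2 = Qpol q := by
    rw [hQ, ← haA]
    push_cast
    ring
  rw [hE1, hE2, ← hq, ← haA] at hE
  have hE3 : (Qpol q ^ 2 - 3 * Qpol q + 1) - (1 - Qpol q) * (P3 q β).trace + (P2 q β).trace =
      a * κ ^ 2 := hE
  -- the traces
  have hρ1 : (starRingEnd ℂ) (⟨-(√3 / 2), 1 / 2⟩ : ℂ) * ⟨-(√3 / 2), 1 / 2⟩ = 1 := by
    apply Complex.ext
    · simp only [Complex.mul_re, Complex.conj_re, Complex.conj_im, Complex.one_re]
      linear_combination (1 / 4) * hr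
    · simp only [Complex.mul_im, Complex.conj_re, Complex.conj_im, Complex.one_im]
      ring
  have hρ2 : (κ • P2 q β).det = (⟨-(√3 / 2), 1 / 2⟩ : ℂ) ^ 2 := by
    rw [Matrix.det_smul, Fintype.card_fin, hd2, sq, mul_assoc, mul_inv_cancel₀ hκ0, mul_one, hκ]
    apply Complex.ext
    · simp only [sq, Complex.mul_re]
      linear_combination (-(1 / 4)) * hr
    · simp only [sq, Complex.mul_im]
      ring
  have hg2 : Qpol q - 1 = ((a ^ 2 - 1 : ℝ) : ℂ) := by
    rw [hQ]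
    push_cast
    ring
  have hg3 : Qpol q - 2 = ((a ^ 2 - 2 : ℝ) : ℂ) := by
    rw [hQ]
    push_cast
    ring
  rw [hg2] at hu2
  rw [hg3] at hu3
  obtain ⟨y, hy, hYy⟩ := B4.two_roots (five_pos2 (by linarith)) (five_smul hu2 hκc) hρ2 hρ1
  have hD := B4.three_roots (five_pos3 (by linarith)) (five_smul hu3 hκc)
  rw [Matrix.trace_smul, smul_eq_mul] at hYy
  have hdet3 : (κ • P3 q β).det = -κ⁻¹ := by
    rw [Matrix.det_smul, Fintype.card_fin, hd3, hκ3]
    ring
  have e1 : ∀ X : ℂ, (X ^ 3 * (starRingEnd ℂ) (-κ⁻¹)).re = -(X ^ 3 * κ).re := by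
    intro X
    rw [map_neg, map_inv₀, ← hκi, inv_inv, ← Complex.neg_re]
    congr 1
    ring
  rw [hdet3, e1] at hD
  refine B4.no_matrices ha1 (le_of_abs_le hy) hκ (X := (κ • P3 q β).trace) ?_ (by linarith)
  rw [Matrix.trace_smul, smul_eq_mul]
  rw [hQ] at hE3
  push_cast at hE3
  linear_combination κ * hE3 + (-(1 : ℂ)) * hYy + (a : ℂ) * hκ3

end Pool.Agent.FB.AX
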