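import Mathlib
import Pool.Agent.FB.AX.St

/-!
# FB/AX: modules SYM and UNI

A block is `M = (1 + c J) D`, `J = 1 wᵀ`, `w = (1, 1, Q - 2)` (resp. `(1, Q - 1)`), `J J = Q J`, `c = (z - 1) / Q`;
`G = diag w`; `M (q⁻¹)ᵀ G M (q) = G`.
-/

set_option autoImplicit false

open Matrix LaurentPolynomial Pool.RU Pool.Agent.FB.U5

namespace Pool.Agent.FB.AX

private theorem SY_Q (q : ℂ) : Qpol q⁻¹ = Qpol q := by
  unfold Qpol
  rw [inv_inv]
  ring

/-- the form of the blocks `T3` -/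
private theorem SY_b3 {Q x y z x' y' z' : ℂ} (hQ : Q ≠ 0) (hx : x' * x = 1) (hy : y' * y = 1)
    (hz : z' * z = 1) :
    (U5.T3 Q (x', y', z'))ᵀ * Matrix.diagonal ![1, 1, Q - 2] * U5.T3 Q (x, y, z) =
      Matrix.diagonal ![1, 1, Q - 2] := by
  obtain ⟨c, hc⟩ : ∃ c, (z - 1) / Q = c := ⟨_, rfl⟩
  obtain ⟨c', hc'⟩ : ∃ c', (z' - 1) / Q = c' := ⟨_, rfl⟩
  have h : c + c' + c * c' * Q = 0 := by
    rw [← hc, ← hc']
    field_simp
    linear_combination hz
  unfold U5.T3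
  simp only [hc, hc']
  ext i j
  fin_cases i <;> fin_cases j <;>
    simp [Matrix.mul_apply, Fin.sum_univ_three, Matrix.diagonal, Matrix.one_apply]
  · linear_combination (1 + (c + c' + c * c' * Q)) * hx + h
  · linear_combination x' * y * h
  · linear_combination x' * (Q - 2) * h
  · linear_combination y' * x * h
  · linear_combination (1 + (c + c' + c * c' * Q)) * hy + h
  · linear_combination y' * (Q - 2) * h
  · linear_combination (Q - 2) * x * h
  · linear_combination (Q - 2) * y * h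
  · linear_combination (Q - 2) * (Q - 2) * h

/-- the form of the blocks `T2` -/
private theorem SY_b2 {Q x y z x' y' z' : ℂ} (hQ : Q ≠ 0) (hx : x' * x = 1) (hy : y' * y = 1)
    (hz : z' * z = 1) :
    (U5.T2 Q (x', y', z'))ᵀ * Matrix.diagonal ![1, Q - 1] * U5.T2 Q (x, y, z) =
      Matrix.diagonal ![1, Q - 1] := by
  obtain ⟨c, hc⟩ : ∃ c, (z - 1) / Q = c := ⟨_, rfl⟩
  obtain ⟨c', hc'⟩ : ∃ c', (z' - 1) / Q = c' := ⟨_, rfl⟩
  have h : c + c' + c * c' * Q = 0 := by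
    rw [← hc, ← hc']
    field_simp
    linear_combination hz
  have hxy : x' * y' * (x * y) = 1 := by
    linear_combination y' * y * hx + hy
  unfold U5.T2
  simp only [hc, hc']
  ext i j
  fin_cases i <;> fin_cases j <;>
    simp [Matrix.mul_apply, Fin.sum_univ_two, Matrix.diagonal, Matrix.one_apply]
  · linear_combination (1 + (c + c' + c * c' * Q)) * hxy + h
  · linear_combination x' * y' * (Q - 1) * h
  · linear_combination (Q - 1) * (x * y) * h
  · linear_combination (Q - 1) * (Q - 1) * h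

private theorem SY_d3 {Q x y z : ℂ} (hQ : Q ≠ 0) : (U5.T3 Q (x, y, z)).det = x * y * z := by
  obtain ⟨c, hc⟩ : ∃ c, (z - 1) / Q = c := ⟨_, rfl⟩
  have hz : z = 1 + c * Q := by
    rw [← hc]
    field_simp
    ring
  unfold U5.T3
  simp only [hc]
  rw [Matrix.det_mul, Matrix.det_diagonal, Matrix.det_fin_three, Fin.prod_univ_three]
  simp [Matrix.one_apply]
  rw [hz]
  ring

private theorem SY_d2 {Q x y z : ℂ} (hQ : Q ≠ 0) : (U5.T2 Q (x, y, z)).det = x * y * z := by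
  obtain ⟨c, hc⟩ : ∃ c, (z - 1) / Q = c := ⟨_, rfl⟩
  have hz : z = 1 + c * Q := by
    rw [← hc]
    field_simp
    ring
  unfold U5.T2
  simp only [hc]
  rw [Matrix.det_mul, Matrix.det_diagonal, Matrix.det_fin_two, Fin.prod_univ_two]
  simp [Matrix.one_apply]
  rw [hz]
  ring

private theorem SY_P3 {q : ℂ} (hq : q ≠ 0) (hQ : Qpol q ≠ 0) (β : List (ℤ × ℤ × ℤ)) :
    (P3 q⁻¹ β)ᵀ * Matrix.diagonal ![1, 1, Qpol q - 2] * P3 q β =
      Matrix.diagonal ![1, 1, Qpol q - 2] := by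
  induction β with
  | nil => simp [P3]
  | cons t β ih =>
    have e1 : P3 q (t :: β) = U5.T3 (Qpol q) (wts q t) * P3 q β := by simp [P3]
    have e2 : P3 q⁻¹ (t :: β) = U5.T3 (Qpol q) (wts q⁻¹ t) * P3 q⁻¹ β := by
      simp [P3, SY_Q]
    have hw : ∀ n : ℤ, q⁻¹ ^ n * q ^ n = 1 := fun n => by
      rw [_root_.inv_zpow, inv_mul_cancel₀ (zpow_ne_zero _ hq)]
    have hb : (U5.T3 (Qpol q) (wts q⁻¹ t))ᵀ * Matrix.diagonal ![1, 1, Qpol q - 2] *
        U5.T3 (Qpol q) (wts q t) = Matrix.diagonal ![1, 1, Qpol q - 2] :=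
      SY_b3 hQ (hw _) (hw _) (hw _)
    rw [e1, e2, Matrix.transpose_mul]
    calc _ = (P3 q⁻¹ β)ᵀ * ((U5.T3 (Qpol q) (wts q⁻¹ t))ᵀ * Matrix.diagonal ![1, 1, Qpol q - 2] *
        U5.T3 (Qpol q) (wts q t)) * P3 q β := by simp only [Matrix.mul_assoc]
      _ = _ := by rw [hb, ih]

private theorem SY_P2 {q : ℂ} (hq : q ≠ 0) (hQ : Qpol q ≠ 0) (β : List (ℤ × ℤ × ℤ)) :
    (P2 q⁻¹ β)ᵀ * Matrix.diagonal ![1, Qpol q - 1] * P2 q β =
      Matrix.diagonal ![1, Qpol q - 1] := by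
  induction β with
  | nil => simp [P2]
  | cons t β ih =>
    have e1 : P2 q (t :: β) = U5.T2 (Qpol q) (wts q t) * P2 q β := by simp [P2]
    have e2 : P2 q⁻¹ (t :: β) = U5.T2 (Qpol q) (wts q⁻¹ t) * P2 q⁻¹ β := by
      simp [P2, SY_Q]
    have hw : ∀ n : ℤ, q⁻¹ ^ n * q ^ n = 1 := fun n => by
      rw [_root_.inv_zpow, inv_mul_cancel₀ (zpow_ne_zero _ hq)]
    have hb : (U5.T2 (Qpol q) (wts q⁻¹ t))ᵀ * Matrix.diagonal ![1, Qpol q - 1] *
        U5.T2 (Qpol q) (wts q t) = Matrix.diagonal ![1, Qpol q - 1] :=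
      SY_b2 hQ (hw _) (hw _) (hw _)
    rw [e1, e2, Matrix.transpose_mul]
    calc _ = (P2 q⁻¹ β)ᵀ * ((U5.T2 (Qpol q) (wts q⁻¹ t))ᵀ * Matrix.diagonal ![1, Qpol q - 1] *
        U5.T2 (Qpol q) (wts q t)) * P2 q β := by simp only [Matrix.mul_assoc]
      _ = _ := by rw [hb, ih]

private theorem SY_D3 {q : ℂ} (hq : q ≠ 0) (hQ : Qpol q ≠ 0) (β : List (ℤ × ℤ × ℤ)) :
    (P3 q β).det = q ^ W8.tot β := by
  induction β with
  | nil => simp [P3, W8.tot]
  | cons t β ih =>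
    have e1 : P3 q (t :: β) = U5.T3 (Qpol q) (wts q t) * P3 q β := by simp [P3]
    have e2 : W8.tot (t :: β) = t.1 + t.2.1 + t.2.2 + W8.tot β := by simp [W8.tot]
    have hd : (U5.T3 (Qpol q) (wts q t)).det = q ^ t.1 * q ^ t.2.1 * q ^ t.2.2 := SY_d3 hQ
    rw [e1, Matrix.det_mul, ih, hd, e2, zpow_add₀ hq, zpow_add₀ hq, zpow_add₀ hq]

private theorem SY_D2 {q : ℂ} (hq : q ≠ 0) (hQ : Qpol q ≠ 0) (β : List (ℤ × ℤ × ℤ)) :
    (P2 q β).det = q ^ W8.tot β := by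
  induction β with
  | nil => simp [P2, W8.tot]
  | cons t β ih =>
    have e1 : P2 q (t :: β) = U5.T2 (Qpol q) (wts q t) * P2 q β := by simp [P2]
    have e2 : W8.tot (t :: β) = t.1 + t.2.1 + t.2.2 + W8.tot β := by simp [W8.tot]
    have hd : (U5.T2 (Qpol q) (wts q t)).det = q ^ t.1 * q ^ t.2.1 * q ^ t.2.2 := SY_d2 hQ
    rw [e1, Matrix.det_mul, ih, hd, e2, zpow_add₀ hq, zpow_add₀ hq, zpow_add₀ hq]

/-- the trace of the inverse -/
private theorem SY_tr {n : ℕ} (A B G : Matrix (Fin n) (Fin n) ℂ) (hG : G.det ≠ 0)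
    (h : Bᵀ * G * A = G) : A.det * B.trace = A.adjugate.trace := by
  have h1 : A.det • (Bᵀ * G) = G * A.adjugate := by
    have := congrArg (fun M => M * A.adjugate) h
    simp only [Matrix.mul_assoc, Matrix.mul_adjugate] at this
    rw [← this]
    simp
  have hu : IsUnit G.det := isUnit_iff_ne_zero.mpr hG
  have h2 : A.det • Bᵀ = G * A.adjugate * G⁻¹ := by
    rw [← h1, Matrix.smul_mul, Matrix.mul_assoc, Matrix.mul_nonsing_inv _ hu, Matrix.mul_one]
  have h3 := congrArg Matrix.trace h2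
  rw [Matrix.trace_smul, Matrix.trace_transpose, Matrix.mul_assoc, Matrix.trace_mul_comm,
    Matrix.mul_assoc, Matrix.nonsing_inv_mul _ hu, Matrix.mul_one, smul_eq_mul] at h3
  exact h3

private theorem SY_char (A : Matrix (Fin 3) (Fin 3) ℂ) :
    (1 - A).det = 1 - A.trace + A.adjugate.trace - A.det := by
  rw [Matrix.det_fin_three, Matrix.det_fin_three, Matrix.adjugate_fin_three, Matrix.trace_fin_three,
    Matrix.trace_fin_three]
  simp [Matrix.one_apply]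
  ring

theorem thm_Sym : St_Sym := by
  intro β q hq hQ hQ1 hQ2
  have d3 := SY_D3 hq hQ β
  have d2 := SY_D2 hq hQ β
  refine ⟨d3, d2, ?_, ?_⟩
  · have hG : (Matrix.diagonal ![1, Qpol q - 1]).det ≠ 0 := by
      rw [Matrix.det_diagonal, Fin.prod_univ_two]
      simpa [sub_eq_zero] using hQ1
    have h := SY_tr _ _ _ hG (SY_P2 hq hQ β)
    have ha : (P2 q β).adjugate.trace = (P2 q β).trace := by
      rw [Matrix.adjugate_fin_two, Matrix.trace_fin_two, Matrix.trace_fin_two]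
      simp [add_comm]
    rw [ha, d2] at h
    rw [← h, ← mul_assoc, ← zpow_add₀ hq]
    simp
  · have hG : (Matrix.diagonal ![1, 1, Qpol q - 2]).det ≠ 0 := by
      rw [Matrix.det_diagonal, Fin.prod_univ_three]
      simpa [sub_eq_zero] using hQ2
    have h := SY_tr _ _ _ hG (SY_P3 hq hQ β)
    rw [d3] at h
    rw [SY_char, ← h, d3]

private theorem SY_conj {q : ℂ} (h : ‖q‖ = 1) : (starRingEnd ℂ) q = q⁻¹ := by
  rw [Complex.inv_def, Complex.normSq_eq_norm_sq, h]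
  simp

private theorem SY_star3 {q : ℂ} (h : ‖q‖ = 1) (β : List (ℤ × ℤ × ℤ)) :
    (P3 q β)ᴴ = (P3 q⁻¹ β)ᵀ := by
  have hc := SY_conj h
  have hQc : (starRingEnd ℂ) (Qpol q) = Qpol q := by
    unfold Qpol
    rw [map_sub, map_sub, map_inv₀, hc, inv_inv, map_ofNat]
    ring
  induction β with
  | nil => simp [P3]
  | cons t β ih =>
    have e1 : P3 q (t :: β) = U5.T3 (Qpol q) (wts q t) * P3 q β := by simp [P3]
    have e2 : P3 q⁻¹ (t :: β) = U5.T3 (Qpol q) (wts q⁻¹ t) * P3 q⁻¹ β := by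
      simp [P3, SY_Q]
    have hb : (U5.T3 (Qpol q) (wts q t))ᴴ = (U5.T3 (Qpol q) (wts q⁻¹ t))ᵀ := by
      obtain ⟨c, hc1⟩ : ∃ c, (q ^ t.2.2 - 1) / Qpol q = c := ⟨_, rfl⟩
      obtain ⟨c', hc1'⟩ : ∃ c', (q⁻¹ ^ t.2.2 - 1) / Qpol q = c' := ⟨_, rfl⟩
      have hcc : (starRingEnd ℂ) c = c' := by
        rw [← hc1, ← hc1', map_div₀, map_sub, map_zpow₀, hc, hQc, map_one]
      unfold U5.T3 wts
      simp only [hc1, hc1']
      ext i j
      fin_cases i <;> fin_cases j <;>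
        simp [Matrix.mul_apply, Fin.sum_univ_three, Matrix.diagonal, Matrix.one_apply,
          hcc, hc, hQc]
    rw [e1, e2, Matrix.conjTranspose_mul, Matrix.transpose_mul, ih, hb]

private theorem SY_star2 {q : ℂ} (h : ‖q‖ = 1) (β : List (ℤ × ℤ × ℤ)) :
    (P2 q β)ᴴ = (P2 q⁻¹ β)ᵀ := by
  have hc := SY_conj h
  have hQc : (starRingEnd ℂ) (Qpol q) = Qpol q := by
    unfold Qpol
    rw [map_sub, map_sub, map_inv₀, hc, inv_inv, map_ofNat]
    ring
  induction β with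
  | nil => simp [P2]
  | cons t β ih =>
    have e1 : P2 q (t :: β) = U5.T2 (Qpol q) (wts q t) * P2 q β := by simp [P2]
    have e2 : P2 q⁻¹ (t :: β) = U5.T2 (Qpol q) (wts q⁻¹ t) * P2 q⁻¹ β := by
      simp [P2, SY_Q]
    have hb : (U5.T2 (Qpol q) (wts q t))ᴴ = (U5.T2 (Qpol q) (wts q⁻¹ t))ᵀ := by
      obtain ⟨c, hc1⟩ : ∃ c, (q ^ t.2.2 - 1) / Qpol q = c := ⟨_, rfl⟩
      obtain ⟨c', hc1'⟩ : ∃ c', (q⁻¹ ^ t.2.2 - 1) / Qpol q = c' := ⟨_, rfl⟩
      have hcc : (starRingEnd ℂ) c = c' := by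
        rw [← hc1, ← hc1', map_div₀, map_sub, map_zpow₀, hc, hQc, map_one]
      unfold U5.T2 wts
      simp only [hc1, hc1']
      ext i j
      fin_cases i <;> fin_cases j <;>
        simp [Matrix.mul_apply, Fin.sum_univ_two, Matrix.diagonal, Matrix.one_apply,
          hcc, hc, hQc]
    rw [e1, e2, Matrix.conjTranspose_mul, Matrix.transpose_mul, ih, hb]

theorem thm_Uni : St_Uni := by
  intro β q h hQ
  have hq : q ≠ 0 := by
    intro h0
    rw [h0] at h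
    simp at h
  rw [SY_star3 h, SY_star2 h]
  exact ⟨SY_P3 hq hQ β, SY_P2 hq hQ β⟩

end Pool.Agent.FB.AX
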