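import Pool.Agent.FB.AX.KEYA
import Pool.Agent.FB.AX.SYM
import Pool.Agent.FB.AX.BUR
import Pool.Agent.FB.AX.FIVE
import Pool.Agent.FB.AX.FIN

/-!
# FB/AX: closed 4-braids with `f = 1`: the exponent sum and the Alexander polynomial
-/

set_option autoImplicit false

namespace Pool.Agent.FB.AX

/-- **closed 4-braids with `f = 1`** -/
theorem thm_Alex : St_Alex :=
  alex_of thm_KeyA thm_Sym thm_Bur (thm_Five thm_KeyA thm_Sym thm_Uni)

end Pool.Agent.FB.AX
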