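import Mathlib
import Pool.Agent.FB.AX.St
import Pool.Agent.FB.TOP
import Pool.Agent.FB.W8.WR
import Pool.Agent.FB.W8.LNK

/-!
# FB/AX, module KEYA: what `f = 1` says

The lemmas are those of `FB/Z1/KEYQ.lean` (they are private there).
-/

set_option autoImplicit false

namespace Pool.Agent.FB.AX

open LaurentPolynomial Pool.RU Matrix
open Pool.Agent.FB.U5 (wts)

/-! ### the value of `A` -/

/-- the loop value -/
private noncomputable def KA_dl (A : ℂ) : ℂ := -A ^ 2 - A⁻¹ ^ 2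

/-- the weight -/
private noncomputable def KA_q0 (A : ℂ) : ℂ := -A⁻¹ ^ 4

/-- `1 + A ^ (-2 ε) δ = q ^ ε` -/
private theorem KA_one_add {A : ℂ} (hA : A ≠ 0) (ε : ℤˣ) :
    1 + A ^ (-2 * (ε : ℤ)) * KA_dl A = KA_q0 A ^ (ε : ℤ) := by
  unfold KA_dl KA_q0
  rcases Int.units_eq_one_or ε with rfl | rfl
  · have e1 : A ^ (-2 * ((1 : ℤˣ) : ℤ)) = (A ^ 2)⁻¹ := by
      rw [Units.val_one, mul_one, _root_.zpow_neg]
      norm_cast
    rw [e1, Units.val_one, zpow_one]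
    field_simp
    ring
  · have e1 : A ^ (-2 * ((-1 : ℤˣ) : ℤ)) = A ^ 2 := by
      norm_num
    rw [e1]
    have e2 : (-A⁻¹ ^ 4 : ℂ) ^ ((-1 : ℤˣ) : ℤ) = -A ^ 4 := by
      rw [Units.val_neg, Units.val_one, _root_.zpow_neg_one, inv_pow, inv_neg, inv_inv]
    rw [e2]
    field_simp
    ring

section

variable {R : Type} [Ring R] [Algebra ℂ R]

private theorem KA_fac_eq {A : ℂ} (hA : A ≠ 0) (e : Fin 3 → R) (i : Fin 3) (ε : ℤˣ) :
    TOP_fac A e (i, ε) = A ^ (ε : ℤ) • (1 + A ^ (-2 * (ε : ℤ)) • e i) := by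
  unfold TOP_fac
  rw [smul_add, smul_smul, ← zpow_add₀ hA]
  congr 3
  ring

/-- the block factor of a syllable -/
private noncomputable def KA_blk (A : ℂ) (e : Fin 3 → R) (i : Fin 3) (a : ℤ) : R :=
  1 + ((KA_q0 A ^ a - 1) / KA_dl A) • e i

private theorem KA_syllable {A : ℂ} (hA : A ≠ 0) (hδ : KA_dl A ≠ 0) (e : Fin 3 → R)
    (he : ∀ i, e i * e i = KA_dl A • e i) (i : Fin 3) (a : ℤ) :
    ((syllable i a).map (TOP_fac A e)).prod = A ^ a • KA_blk A e i a := by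
  unfold syllable
  set ε : ℤˣ := if 0 ≤ a then 1 else -1 with hε
  have h1 : (ε : ℤ) * (a.natAbs : ℤ) = a := by
    rw [hε]
    split_ifs with h
    · rw [Units.val_one, one_mul]
      omega
    · rw [Units.val_neg, Units.val_one]
      omega
  rw [List.map_replicate, List.prod_replicate, KA_fac_eq hA, smul_pow, TOP_pow _ _ hδ _ (he i),
    KA_one_add hA, ← zpow_natCast, ← _root_.zpow_mul, h1, ← zpow_natCast,
    ← _root_.zpow_mul, h1]
  rfl

private theorem KA_word {A : ℂ} (hA : A ≠ 0) (hδ : KA_dl A ≠ 0) (e : Fin 3 → R)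
    (he : ∀ i, e i * e i = KA_dl A • e i) (β : List (ℤ × ℤ × ℤ)) :
    ((word β).map (TOP_fac A e)).prod = A ^ TOP_tot β •
      (β.map fun t => KA_blk A e 1 t.2.2 * (KA_blk A e 0 t.1 * KA_blk A e 2 t.2.1)).prod := by
  induction β with
  | nil => simp [word, TOP_tot]
  | cons t β ih =>
    have h1 : word (t :: β) = syllable 1 t.2.2 ++ (syllable 0 t.1 ++ syllable 2 t.2.1) ++ word β := by
      unfold word
      rw [List.map_cons, List.flatten_cons]
    have h2 : TOP_tot (t :: β) = (t.2.2 + (t.1 + t.2.1)) + TOP_tot β := by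
      unfold TOP_tot
      rw [List.map_cons, List.sum_cons]
    rw [h1, h2, List.map_append, List.map_append, List.map_append, List.prod_append,
      List.prod_append, List.prod_append, ih, KA_syllable hA hδ e he, KA_syllable hA hδ e he,
      KA_syllable hA hδ e he, List.map_cons, List.prod_cons, zpow_add₀ hA,
      zpow_add₀ hA, zpow_add₀ hA]
    simp only [smul_mul_smul_comm]

end

/-! ### the theorem -/

private theorem KA_val_T (A : ℂˣ) (k : ℤ) : ev A (T k) = (A : ℂ) ^ k := by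
  unfold ev
  rw [LaurentPolynomial.eval₂_T, Units.val_zpow_eq_zpow_val]

private theorem KA_ev (A : ℂˣ) (f : ℤ[T;T⁻¹]) :
    ev A f = LaurentPolynomial.eval₂ (Int.castRingHom ℂ) A f := rfl

private theorem KA_bracket (A : ℂˣ) (w : List (Fin 3 × ℤˣ)) :
    KA_dl A * ev A (trivialClosure.insert w).bracket =
      TOP_S A w fun u => KA_dl A ^ TOP_L u := by
  rw [← TOP_S_state]
  have h1 : ev A (trivialClosure.insert w).bracket =
      ∑ s : Fin (0 + w.length) → Bool, (∏ x, (A : ℂ) ^ (if s x then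
        ((trivialClosure.insert w).kind x : ℤ) else -((trivialClosure.insert w).kind x : ℤ))) *
          KA_dl A ^ ((trivialClosure.insert w).curves (ways s) - 1) := by
    unfold Diagram.bracket
    have hd : ev A (-T 2 - T (-2)) = KA_dl A := by
      rw [KA_ev, map_sub, map_neg, ← KA_ev, ← KA_ev, KA_val_T, KA_val_T, _root_.zpow_neg]
      unfold KA_dl
      rw [inv_pow]
      norm_cast
    rw [KA_ev, map_sum]
    refine Finset.sum_congr rfl fun s _ => ?_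
    rw [map_mul, map_pow, map_prod, ← KA_ev, hd]
    congr 1
    refine Finset.prod_congr rfl fun x _ => ?_
    rw [← KA_ev, KA_val_T]
  rw [h1, Finset.mul_sum]
  refine Finset.sum_congr rfl fun s _ => ?_
  rw [← TOP_curves w s, mul_left_comm, ← pow_succ',
    Nat.sub_add_cancel (curves_pos (trivialClosure.insert w) (ways s))]

private theorem KA_EE (A : ℂˣ) (hδ : KA_dl A ≠ 0) (β : List (ℤ × ℤ × ℤ)) :
    KA_dl A * ev A (closure β).bracket =
      (A : ℂ) ^ TOP_tot β * U5.EE (KA_dl A ^ 2) (β.map (wts (KA_q0 A))) := by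
  have hA : (A : ℂ) ≠ 0 := A.ne_zero
  set δ : ℂ := KA_dl A with hδd
  have e0 : (fun u => δ ^ TOP_L u) = fun u => (δ ^ 4 - 3 * δ ^ 2 + 1) * TOP_one u +
      ((δ ^ 2 - 1) * TOP_tr (TOP_E3 δ) u + TOP_tr (TOP_E2 δ) u) := by
    funext u
    exact TOP_curves_eq δ hδ u
  -- the three parts
  have p1 : TOP_S A (word β) TOP_one = (A : ℂ) ^ TOP_tot β := by
    have h2 := TOP_S_rep A (fun _ => (0 : ℂ)) (word β) LinearMap.id
    have h3 := KA_word hA hδ (fun _ => (0 : ℂ)) (fun i => by simp) β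
    have h4 : (fun u : List (Fin 3) => (LinearMap.id : ℂ →ₗ[ℂ] ℂ) (u.map fun _ => (0 : ℂ)).prod) =
        TOP_one := rfl
    rw [h4] at h2
    rw [h2, LinearMap.id_apply, h3]
    have h5 : ∀ t : ℤ × ℤ × ℤ, KA_blk (A : ℂ) (fun _ => (0 : ℂ)) 1 t.2.2 *
        (KA_blk (A : ℂ) (fun _ => (0 : ℂ)) 0 t.1 * KA_blk (A : ℂ) (fun _ => (0 : ℂ)) 2 t.2.1) =
          1 := by
      intro t
      simp [KA_blk]
    simp only [h5]
    simp
  have p3 : TOP_S A (word β) (TOP_tr (TOP_E3 δ)) = (A : ℂ) ^ TOP_tot β *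
      ((β.map (wts (KA_q0 A))).map (U5.T3 (δ ^ 2))).prod.trace := by
    have h2 := TOP_S_rep A (TOP_E3 δ) (word β) (Matrix.traceLinearMap (Fin 3) ℂ ℂ)
    have h3 := KA_word hA hδ (TOP_E3 δ) (TOP_TL3 δ hδ).1 β
    have h4 : (fun u : List (Fin 3) => Matrix.traceLinearMap (Fin 3) ℂ ℂ (u.map (TOP_E3 δ)).prod) =
        TOP_tr (TOP_E3 δ) := rfl
    rw [h4] at h2
    rw [h2, h3, map_smul, smul_eq_mul, Matrix.traceLinearMap_apply, List.map_map]
    congr 4
    funext t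
    unfold U5.T3 KA_blk
    simp only [Function.comp_apply, wts]
    ext a b
    fin_cases a <;> fin_cases b <;>
      simp [TOP_E3, Matrix.mul_apply, Fin.sum_univ_three, Matrix.diagonal, ← hδd] <;>
      field_simp <;> ring
  have p2 : TOP_S A (word β) (TOP_tr (TOP_E2 δ)) = (A : ℂ) ^ TOP_tot β *
      ((β.map (wts (KA_q0 A))).map (U5.T2 (δ ^ 2))).prod.trace := by
    have h2 := TOP_S_rep A (TOP_E2 δ) (word β) (Matrix.traceLinearMap (Fin 2) ℂ ℂ)
    have h3 := KA_word hA hδ (TOP_E2 δ) (TOP_TL2 δ hδ).1 β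
    have h4 : (fun u : List (Fin 3) => Matrix.traceLinearMap (Fin 2) ℂ ℂ (u.map (TOP_E2 δ)).prod) =
        TOP_tr (TOP_E2 δ) := rfl
    rw [h4] at h2
    rw [h2, h3, map_smul, smul_eq_mul, Matrix.traceLinearMap_apply, List.map_map]
    congr 4
    funext t
    unfold U5.T2 KA_blk
    simp only [Function.comp_apply, wts]
    ext a b
    fin_cases a <;> fin_cases b <;>
      simp [TOP_E2, Matrix.mul_apply, Fin.sum_univ_two, Matrix.diagonal, ← hδd] <;>
      field_simp <;> ring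
  unfold closure
  rw [KA_bracket, ← hδd, e0, TOP_S_add, TOP_S_mul, TOP_S_add, TOP_S_mul, p1, p2, p3]
  unfold U5.EE
  ring

/-! ### the theorem -/

private theorem KA_tot (β : List (ℤ × ℤ × ℤ)) : TOP_tot β = W8.tot β := by
  unfold TOP_tot W8.tot
  congr 1
  refine List.map_congr_left fun t _ => ?_
  ring

/-- `f = 1` at `A` -/
private theorem KA_one (β : List (ℤ × ℤ × ℤ)) (o : Tip 3 (0 + (word β).length) → Bool)
    (hw : (closure β).writhe o = W8.tot β) (hn : (closure β).normalized o = 1) (A : ℂˣ)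
    (hδ : KA_dl A ≠ 0) :
    U5.EE (KA_dl A ^ 2) (β.map (wts (KA_q0 A))) =
      KA_dl A * (((((-1 : ℤˣ) ^ W8.tot β : ℤˣ) : ℤ) : ℂ) * (A : ℂ) ^ (2 * W8.tot β)) := by
  have hA : (A : ℂ) ≠ 0 := A.ne_zero
  have h1 := KA_EE A hδ β
  rw [KA_tot] at h1
  have h2 : (((((-1 : ℤˣ) ^ W8.tot β : ℤˣ) : ℤ) : ℂ)) * ((A : ℂ) ^ (-3 * W8.tot β) *
      ev A (closure β).bracket) = 1 := by
    have h3 : ev A ((closure β).normalized o) = 1 := by
      rw [hn, KA_ev, map_one]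
    unfold Diagram.normalized at h3
    rw [KA_ev, map_mul, map_mul, ← KA_ev, ← KA_ev, ← KA_ev, KA_val_T, hw, KA_ev,
      LaurentPolynomial.eval₂_C] at h3
    rw [← mul_assoc]
    exact h3
  have h4 : (((((-1 : ℤˣ) ^ W8.tot β : ℤˣ) : ℤ) : ℂ)) * (((((-1 : ℤˣ) ^ W8.tot β : ℤˣ) : ℤ) : ℂ)) =
      1 := by
    rcases Int.units_eq_one_or ((-1 : ℤˣ) ^ W8.tot β) with h | h <;> rw [h] <;> simp
  have h5 : ev A (closure β).bracket = (((((-1 : ℤˣ) ^ W8.tot β : ℤˣ) : ℤ) : ℂ)) *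
      (A : ℂ) ^ (3 * W8.tot β) := by
    have h6 : (A : ℂ) ^ (3 * W8.tot β) * (A : ℂ) ^ (-3 * W8.tot β) = 1 := by
      rw [← zpow_add₀ hA]
      have : 3 * W8.tot β + -3 * W8.tot β = 0 := by ring
      rw [this, zpow_zero]
    calc ev A (closure β).bracket = (((((((-1 : ℤˣ) ^ W8.tot β : ℤˣ) : ℤ) : ℂ)) *
          (((((-1 : ℤˣ) ^ W8.tot β : ℤˣ) : ℤ) : ℂ))) *
          ((A : ℂ) ^ (3 * W8.tot β) * (A : ℂ) ^ (-3 * W8.tot β))) * ev A (closure β).bracket := by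
            rw [h4, h6, one_mul, one_mul]
      _ = ((((((-1 : ℤˣ) ^ W8.tot β : ℤˣ) : ℤ) : ℂ)) * (A : ℂ) ^ (3 * W8.tot β)) *
          ((((((-1 : ℤˣ) ^ W8.tot β : ℤˣ) : ℤ) : ℂ)) * ((A : ℂ) ^ (-3 * W8.tot β) *
            ev A (closure β).bracket)) := by ring
      _ = _ := by rw [h2, mul_one]
  rw [h5] at h1
  have h7 : (A : ℂ) ^ W8.tot β ≠ 0 := zpow_ne_zero _ hA
  apply mul_left_cancel₀ h7
  rw [← h1]
  have h8 : (A : ℂ) ^ (3 * W8.tot β) = (A : ℂ) ^ W8.tot β * (A : ℂ) ^ (2 * W8.tot β) := by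
    rw [← zpow_add₀ hA]
    congr 1
    ring
  rw [h8]
  ring

/-- **Module KEYA** -/
theorem thm_KeyA : St_KeyA := by
  intro β o ho hn
  have hw := W8.thm_Wr β o ho (W8.LNK_isKnot (closure β) o hn)
  have hodd : Odd (W8.tot β) := by
    by_contra hc
    rw [Int.not_odd_iff_even] at hc
    have hs : (((((-1 : ℤˣ) ^ W8.tot β : ℤˣ) : ℤ) : ℂ)) = 1 := by
      rw [hc.neg_one_zpow]
      simp
    have hd1 : KA_dl ((1 : ℂˣ) : ℂ) = -2 := by
      unfold KA_dl
      norm_num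
    obtain ⟨I', hI'⟩ : ∃ I' : ℂˣ, (I' : ℂ) = Complex.I := ⟨Units.mk0 Complex.I Complex.I_ne_zero, rfl⟩
    have hd2 : KA_dl (I' : ℂ) = 2 := by
      unfold KA_dl
      rw [hI', Complex.inv_I, neg_sq, Complex.I_sq]
      norm_num
    have hq1 : KA_q0 ((1 : ℂˣ) : ℂ) = -1 := by
      unfold KA_q0
      norm_num
    have hq2 : KA_q0 (I' : ℂ) = -1 := by
      unfold KA_q0
      rw [hI', Complex.inv_I]
      have : (-Complex.I) ^ 4 = 1 := by
        rw [neg_pow, Complex.I_pow_four]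
        norm_num
      rw [this]
    have h1 := KA_one β o hw hn 1 (by rw [hd1]; norm_num)
    have h2 := KA_one β o hw hn I' (by rw [hd2]; norm_num)
    rw [hd1, hq1, hs] at h1
    rw [hd2, hq2, hs, hI'] at h2
    have h3 : ((-2 : ℂ)) ^ 2 = 2 ^ 2 := by norm_num
    rw [h3, h2] at h1
    have h4 : (Complex.I : ℂ) ^ (2 * W8.tot β) = 1 := by
      rw [_root_.zpow_mul]
      have : (Complex.I : ℂ) ^ (2 : ℤ) = -1 := by
        have h5 := Complex.I_sq
        exact_mod_cast h5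
      rw [this]
      exact hc.neg_one_zpow
    rw [h4] at h1
    norm_num at h1
  refine ⟨hodd, fun A hA hδ => ?_⟩
  obtain ⟨A', hA'⟩ : ∃ A' : ℂˣ, (A' : ℂ) = A := ⟨Units.mk0 A hA, rfl⟩
  have hdl : KA_dl (A' : ℂ) = -(A ^ 2 + A⁻¹ ^ 2) := by
    unfold KA_dl
    rw [hA']
    ring
  have h1 := KA_one β o hw hn A' (by rw [hdl]; exact neg_ne_zero.2 hδ)
  have hs : (((((-1 : ℤˣ) ^ W8.tot β : ℤˣ) : ℤ) : ℂ)) = -1 := by
    rw [hodd.neg_one_zpow]
    simp
  have hq : KA_q0 (A' : ℂ) = -A⁻¹ ^ 4 := by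
    unfold KA_q0
    rw [hA']
  rw [hdl, hs, hq, hA', neg_sq] at h1
  rw [h1]
  ring

end Pool.Agent.FB.AX
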